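import Pool.Agent.H57.SC.Targets

set_option autoImplicit false

namespace Pool.Agent.H31.SC

open Finset Pool.Agent.H57.SC

namespace CH

/-- x is strictly between p and q -/
def Bt (p q x : ℕ) : Prop := (p < x ∧ x < q) ∨ (q < x ∧ x < p)

open scoped Classical in
lemma cross (p q p' q' : ℕ) (h1 : p ≠ p') (h2 : p ≠ q') (h3 : q ≠ p') (h4 : q ≠ q') :
    ((if Bt p q p' then (1 : ZMod 2) else 0) + (if Bt p q q' then (1 : ZMod 2) else 0)) =
      ((if Bt p' q' p then (1 : ZMod 2) else 0) + (if Bt p' q' q then (1 : ZMod 2) else 0)) := by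
  have e : (1 : ZMod 2) + 1 = 0 := by decide
  unfold Bt
  rcases lt_or_gt_of_ne h1 with a1 | a1 <;> rcases lt_or_gt_of_ne h2 with a2 | a2 <;>
    rcases lt_or_gt_of_ne h3 with a3 | a3 <;> rcases lt_or_gt_of_ne h4 with a4 | a4 <;>
    simp [a1, a2, a3, a4, not_lt_of_gt a1, not_lt_of_gt a2, not_lt_of_gt a3, not_lt_of_gt a4, e]

lemma btw_iff {B : Type} (pos : B × Fin 3 → ℕ) (b : B) (s : Fin 3) (x : ℕ) :
    Btw pos b s x ↔ Bt (pos (b, s + 1)) (pos (b, s + 2)) x := by
  unfold Pool.Agent.H57.SC.Btw Bt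
  have all : ∀ u v : Fin 3, u ≠ v → u = v + 1 ∨ u = v + 2 := by decide
  constructor
  · rintro ⟨j, k, hj, hk, h1, h2⟩
    have hj' : j = s + 1 ∨ j = s + 2 := all j s hj
    have hk' : k = s + 1 ∨ k = s + 2 := all k s hk
    rcases hj' with rfl | rfl <;> rcases hk' with rfl | rfl
    · omega
    · exact Or.inl ⟨h1, h2⟩
    · exact Or.inr ⟨h1, h2⟩
    · omega
  · have n1 : s + 1 ≠ s := by revert s; decide
    have n2 : s + 2 ≠ s := by revert s; decide
    rintro (⟨h1, h2⟩ | ⟨h1, h2⟩)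
    · exact ⟨_, _, n1, n2, h1, h2⟩
    · exact ⟨_, _, n2, n1, h1, h2⟩

open scoped Classical in
lemma sum_ne (P : Fin 3 → Prop) (t : Fin 3) :
    (∑ j : Fin 3, (if j ≠ t ∧ P j then (1 : ZMod 2) else 0)) =
      (if P (t + 1) then (1 : ZMod 2) else 0) + (if P (t + 2) then (1 : ZMod 2) else 0) := by
  have e1 : (0 : Fin 3) + 1 = 1 := by decide
  have e2 : (0 : Fin 3) + 2 = 2 := by decide
  have e3 : (1 : Fin 3) + 1 = 2 := by decide
  have e4 : (1 : Fin 3) + 2 = 0 := by decide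
  have e5 : (2 : Fin 3) + 1 = 0 := by decide
  have e6 : (2 : Fin 3) + 2 = 1 := by decide
  have ht : t = 0 ∨ t = 1 ∨ t = 2 := by revert t; decide
  rcases ht with rfl | rfl | rfl
  · rw [Fin.sum_univ_three]
    simp
  · rw [Fin.sum_univ_three]
    simp [e3, e4, add_comm]
  · rw [Fin.sum_univ_three]
    simp [e5, e6]

open scoped Classical in
/-- the parity of the number of turning points of b' between the turning points of b -/
noncomputable def Q {B : Type} (pos : B × Fin 3 → ℕ) (b b' : B) (s t : Fin 3) : ZMod 2 :=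
  ∑ j : Fin 3, (if j ≠ t ∧ Btw pos b s (pos (b', j)) then (1 : ZMod 2) else 0)

lemma Q_symm {B : Type} (pos : B × Fin 3 → ℕ) (hp : Function.Injective pos) (b b' : B)
    (s t : Fin 3) (h : b ≠ b') : Q pos b b' s t = Q pos b' b t s := by
  unfold Q
  rw [sum_ne, sum_ne, btw_iff, btw_iff, btw_iff, btw_iff]
  apply cross
  all_goals
    intro he
    exact h (congrArg Prod.fst (hp he))

lemma Q_zero {B : Type} (pos : B × Fin 3 → ℕ) (b b' : B) (s : Fin 3) :
    ∑ t, Q pos b b' s t = 0 := by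
  classical
  have e : ∀ q : ZMod 2, q + q = 0 := fun q => CharTwo.add_self_eq_zero q
  unfold Q
  rw [Finset.sum_comm]
  apply Finset.sum_eq_zero
  intro j _
  by_cases hP : Btw pos b s (pos (b', j))
  · have all : ∀ j : Fin 3, j = 0 ∨ j = 1 ∨ j = 2 := by decide
    have e2 : (1 : ZMod 2) + 1 = 0 := by decide
    rw [Fin.sum_univ_three]
    rcases all j with rfl | rfl | rfl <;> simp [hP, e2]
  · simp [hP]

end CH

open CH in
theorem pf_ch (par : T_PAR) : T_CH := by
  classical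
  intro B _ _ pos hp
  have h0 := par B (fun b b' s t => Q pos b b' s t) (fun b b' s t h => Q_symm pos hp b b' s t h)
    (fun b b' s _ => Q_zero pos b b' s)
  have key : ∀ (χ : B → Fin 3) (b : B), 1 + ∑ b' ∈ univ.erase b, Q pos b b' (χ b) (χ b') =
      if Even (Nat.card {x : B × Fin 3 // x.1 ≠ b ∧ x.2 ≠ χ x.1 ∧ Btw pos b (χ b) (pos x)})
        then 1 else 0 := by
    intro χ b
    have h1 : ((Nat.card {x : B × Fin 3 // x.1 ≠ b ∧ x.2 ≠ χ x.1 ∧ Btw pos b (χ b) (pos x)} : ℕ) :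
        ZMod 2) = ∑ b' ∈ univ.erase b, Q pos b b' (χ b) (χ b') := by
      rw [Nat.card_eq_fintype_card, Fintype.card_subtype, Finset.card_filter, Nat.cast_sum,
        Fintype.sum_prod_type, ← Finset.add_sum_erase univ _ (Finset.mem_univ b)]
      have h2 : ∑ y : Fin 3, (((if (b, y).1 ≠ b ∧ (b, y).2 ≠ χ (b, y).1 ∧
          Btw pos b (χ b) (pos (b, y)) then 1 else 0 : ℕ)) : ZMod 2) = 0 := by
        apply Finset.sum_eq_zero
        intro y _
        simp
      rw [h2, zero_add]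
      apply Finset.sum_congr rfl
      intro b' hb'
      unfold Q
      apply Finset.sum_congr rfl
      intro j _
      have hne := Finset.ne_of_mem_erase hb'
      by_cases hc : j ≠ χ b' ∧ Btw pos b (χ b) (pos (b', j))
      · rw [if_pos hc, if_pos ⟨hne, hc⟩, Nat.cast_one]
      · rw [if_neg hc, if_neg (fun h => hc h.2), Nat.cast_zero]
    rw [← h1]
    by_cases he : Even (Nat.card {x : B × Fin 3 // x.1 ≠ b ∧ x.2 ≠ χ x.1 ∧
      Btw pos b (χ b) (pos x)})
    · rw [if_pos he, (ZMod.natCast_eq_zero_iff_even).mpr he, add_zero]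
    · rw [if_neg he, (ZMod.natCast_eq_one_iff_odd).mpr (Nat.not_even_iff_odd.mp he)]
      decide
  have h3 : ∀ χ : B → Fin 3, ∏ b, (1 + ∑ b' ∈ univ.erase b, Q pos b b' (χ b) (χ b')) =
      if ∀ b, Even (Nat.card {x : B × Fin 3 // x.1 ≠ b ∧ x.2 ≠ χ x.1 ∧
        Btw pos b (χ b) (pos x)}) then 1 else 0 := by
    intro χ
    rw [Finset.prod_congr rfl (fun b _ => key χ b)]
    by_cases hc : ∀ b, Even (Nat.card {x : B × Fin 3 // x.1 ≠ b ∧ x.2 ≠ χ x.1 ∧
        Btw pos b (χ b) (pos x)})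
    · rw [if_pos hc]
      exact Finset.prod_eq_one (fun b _ => if_pos (hc b))
    · rw [if_neg hc]
      push Not at hc
      obtain ⟨b, hb⟩ := hc
      exact Finset.prod_eq_zero (Finset.mem_univ b) (if_neg hb)
  rw [Finset.sum_congr rfl (fun χ _ => h3 χ)] at h0
  rw [← ZMod.natCast_eq_one_iff_odd, Nat.card_eq_fintype_card, Fintype.card_subtype,
    Finset.card_filter, Nat.cast_sum, ← h0]
  apply Finset.sum_congr rfl
  intro χ _
  rw [Nat.cast_ite, Nat.cast_one, Nat.cast_zero]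

end Pool.Agent.H31.SC
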