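import Pool.Agent.H57.SC.Targets

set_option autoImplicit false

namespace Pool.Agent.H31.SC

open Finset Pool.Agent.H57.SC

namespace PAR

variable {B : Type} [Fintype B] [DecidableEq B]

/-- the factor: 1 on the diagonal, Q off the diagonal -/
def T (Q : B → B → Fin 3 → Fin 3 → ZMod 2) (b b' : B) (s t : Fin 3) : ZMod 2 :=
  if b = b' then 1 else Q b b' s t

/-- the contribution of a map of the blocks -/
def W (Q : B → B → Fin 3 → Fin 3 → ZMod 2) (φ : B → B) : ZMod 2 :=
  ∑ χ : B → Fin 3, ∏ b, T Q b (φ b) (χ b) (χ (φ b))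

lemma sum_zero (b0 : B) (F : (B → Fin 3) → ZMod 2)
    (h : ∀ χ, ∑ s, F (Function.update χ b0 s) = 0) : ∑ χ, F χ = 0 := by
  rw [← (Equiv.funSplitAt b0 (Fin 3)).symm.sum_comp, Fintype.sum_prod_type_right]
  apply Finset.sum_eq_zero
  intro g _
  rw [← h ((Equiv.funSplitAt b0 (Fin 3)).symm (0, g))]
  apply Finset.sum_congr rfl
  intro s _
  congr 1
  funext j
  by_cases hj : j = b0
  · subst hj
    simp [Equiv.funSplitAt, Equiv.piSplitAt]
  · simp [Equiv.funSplitAt, Equiv.piSplitAt, hj]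

omit [Fintype B] in
lemma T_symm (Q : B → B → Fin 3 → Fin 3 → ZMod 2)
    (hs : ∀ b b' s t, b ≠ b' → Q b b' s t = Q b' b t s) (b b' : B) (s t : Fin 3) :
    T Q b b' s t = T Q b' b t s := by
  unfold T
  by_cases h : b = b'
  · rw [if_pos h, if_pos h.symm]
  · rw [if_neg h, if_neg (Ne.symm h), hs b b' s t h]

lemma W_nonsurj (Q : B → B → Fin 3 → Fin 3 → ZMod 2)
    (hs : ∀ b b' s t, b ≠ b' → Q b b' s t = Q b' b t s)
    (hz : ∀ b b' s, b ≠ b' → ∑ t, Q b b' s t = 0) (φ : B → B)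
    (hφ : ¬ Function.Surjective φ) : W Q φ = 0 := by
  unfold Function.Surjective at hφ
  push Not at hφ
  obtain ⟨b0, hb0⟩ := hφ
  unfold W
  apply sum_zero b0
  intro χ
  have key : ∀ s : Fin 3,
      ∏ b, T Q b (φ b) (Function.update χ b0 s b) (Function.update χ b0 s (φ b)) =
        Q (φ b0) b0 (χ (φ b0)) s * ∏ b ∈ univ.erase b0, T Q b (φ b) (χ b) (χ (φ b)) := by
    intro s
    rw [← Finset.mul_prod_erase univ _ (Finset.mem_univ b0)]
    congr 1
    · rw [Function.update_self, Function.update_of_ne (hb0 b0), T, if_neg (Ne.symm (hb0 b0)),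
        hs _ _ _ _ (Ne.symm (hb0 b0))]
    · apply Finset.prod_congr rfl
      intro b hb
      rw [Function.update_of_ne (Finset.ne_of_mem_erase hb), Function.update_of_ne (hb0 b)]
  rw [Finset.sum_congr rfl (fun s _ => key s), ← Finset.sum_mul, hz _ _ _ (hb0 b0), zero_mul]

lemma sq2 (q : ZMod 2) : q * q = q := by
  revert q
  decide

lemma W_invol (Q : B → B → Fin 3 → Fin 3 → ZMod 2)
    (hs : ∀ b b' s t, b ≠ b' → Q b b' s t = Q b' b t s)
    (hz : ∀ b b' s, b ≠ b' → ∑ t, Q b b' s t = 0) (σ : Equiv.Perm B)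
    (h1 : σ ≠ 1) (h2 : σ⁻¹ = σ) : W Q σ = 0 := by
  have h3 : ∀ x, σ (σ x) = x := by
    intro x
    have := congrArg (fun τ : Equiv.Perm B => τ (σ x)) h2
    simpa using this.symm
  have h4 : ∃ b, σ b ≠ b := by
    by_contra hc
    push Not at hc
    exact h1 (Equiv.ext hc)
  obtain ⟨b, hb⟩ := h4
  unfold W
  apply sum_zero b
  intro χ
  have hmem : σ b ∈ univ.erase b := Finset.mem_erase.mpr ⟨hb, Finset.mem_univ _⟩
  have key : ∀ s : Fin 3,
      ∏ x, T Q x (σ x) (Function.update χ b s x) (Function.update χ b s (σ x)) =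
        Q (σ b) b (χ (σ b)) s *
          ∏ x ∈ (univ.erase b).erase (σ b), T Q x (σ x) (χ x) (χ (σ x)) := by
    intro s
    rw [← Finset.mul_prod_erase univ _ (Finset.mem_univ b),
      ← Finset.mul_prod_erase (univ.erase b) _ hmem, ← mul_assoc]
    congr 1
    · rw [h3 b, Function.update_self, Function.update_of_ne hb, T_symm Q hs b (σ b), sq2,
        T, if_neg hb]
    · apply Finset.prod_congr rfl
      intro x hx
      rw [Finset.mem_erase, Finset.mem_erase] at hx
      have hxb : σ x ≠ b := by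
        intro h
        apply hx.1
        rw [← h, h3]
      rw [Function.update_of_ne hx.2.1, Function.update_of_ne hxb]
  rw [Finset.sum_congr rfl (fun s _ => key s), ← Finset.sum_mul, hz _ _ _ hb, zero_mul]

lemma W_inv (Q : B → B → Fin 3 → Fin 3 → ZMod 2)
    (hs : ∀ b b' s t, b ≠ b' → Q b b' s t = Q b' b t s) (σ : Equiv.Perm B) :
    W Q (σ⁻¹ : Equiv.Perm B) = W Q σ := by
  unfold W
  apply Finset.sum_congr rfl
  intro χ _
  rw [← Equiv.prod_comp σ (fun b => T Q b (σ⁻¹ b) (χ b) (χ (σ⁻¹ b)))]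
  apply Finset.prod_congr rfl
  intro x _
  have hx : σ⁻¹ (σ x) = x := by simp
  rw [hx, T_symm Q hs]

lemma W_one (Q : B → B → Fin 3 → Fin 3 → ZMod 2) : W Q (1 : Equiv.Perm B) = 1 := by
  unfold W
  have h : ∀ χ : B → Fin 3, ∏ b, T Q b ((1 : Equiv.Perm B) b) (χ b) (χ ((1 : Equiv.Perm B) b)) = 1 := by
    intro χ
    apply Finset.prod_eq_one
    intro b _
    simp [T]
  rw [Finset.sum_congr rfl (fun χ _ => h χ), Finset.sum_const, nsmul_eq_mul, mul_one,
    Finset.card_univ, Fintype.card_fun, Fintype.card_fin]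
  have h3 : ((3 : ℕ) : ZMod 2) = 1 := by decide
  rw [Nat.cast_pow, h3, one_pow]

lemma sum_all (Q : B → B → Fin 3 → Fin 3 → ZMod 2)
    (hs : ∀ b b' s t, b ≠ b' → Q b b' s t = Q b' b t s)
    (hz : ∀ b b' s, b ≠ b' → ∑ t, Q b b' s t = 0) : ∑ φ : B → B, W Q φ = 1 := by
  have h1 : ∑ φ : B → B, W Q φ = ∑ σ : Equiv.Perm B, W Q σ := by
    symm
    have hm := Finset.sum_map (univ : Finset (Equiv.Perm B))
      ⟨fun σ => (σ : B → B), DFunLike.coe_injective⟩ (W Q)
    simp only [Function.Embedding.coeFn_mk] at hm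
    rw [← hm]
    apply Finset.sum_subset (Finset.subset_univ _)
    intro φ _ hφ
    apply W_nonsurj Q hs hz
    intro hsur
    apply hφ
    rw [Finset.mem_map]
    exact ⟨Equiv.ofBijective φ ⟨Finite.injective_iff_surjective.mpr hsur, hsur⟩,
      Finset.mem_univ _, rfl⟩
  rw [h1, ← Finset.add_sum_erase univ _ (Finset.mem_univ (1 : Equiv.Perm B)), W_one]
  have h2 : ∑ σ ∈ univ.erase (1 : Equiv.Perm B), W Q σ = 0 := by
    refine Finset.sum_involution (fun σ _ => σ⁻¹) ?_ ?_ ?_ ?_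
    · intro σ _
      show W Q σ + W Q (σ⁻¹ : Equiv.Perm B) = 0
      rw [W_inv Q hs σ]
      exact CharTwo.add_self_eq_zero _
    · intro σ hσ hne heq
      exact hne (W_invol Q hs hz σ (Finset.ne_of_mem_erase hσ) heq)
    · intro σ hσ
      rw [Finset.mem_erase]
      refine ⟨?_, Finset.mem_univ _⟩
      intro h
      exact Finset.ne_of_mem_erase hσ (inv_eq_one.mp h)
    · intro σ _
      exact inv_inv σ
  rw [h2, add_zero]

end PAR

open PAR in
theorem pf_par : T_PAR := by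
  intro B _ _ Q hs hz
  refine Eq.trans ?_ (sum_all Q hs hz)
  unfold W
  rw [Finset.sum_comm]
  apply Finset.sum_congr rfl
  intro χ _
  have h1 : ∀ b : B, 1 + ∑ b' ∈ univ.erase b, Q b b' (χ b) (χ b') =
      ∑ b', T Q b b' (χ b) (χ b') := by
    intro b
    rw [← Finset.add_sum_erase univ _ (Finset.mem_univ b)]
    congr 1
    · simp [T]
    · apply Finset.sum_congr rfl
      intro b' hb'
      rw [T, if_neg (Ne.symm (Finset.ne_of_mem_erase hb'))]
  rw [Finset.prod_congr rfl (fun b _ => h1 b), Finset.prod_univ_sum, Fintype.piFinset_univ]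

end Pool.Agent.H31.SC
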