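import Pool.Agent.H57.SC.Targets

set_option autoImplicit false

namespace Pool.Agent.H31.SC

open Finset Pool.Agent.H57.SC

namespace OR

variable {B : Type} [Fintype B] [DecidableEq B]

/-- the number of turning points before the position i -/
def S (pos : B × Fin 3 → ℕ) (χ : B → Fin 3) (i : ℕ) : ℕ :=
  (univ.filter (fun x : B × Fin 3 => x.2 ≠ χ x.1 ∧ pos x < i)).card

/-- the orientation of a choice of through points -/
def oc (k : ℕ) (pos : B × Fin 3 → ℕ) (χ : B → Fin 3) : Fin k → Bool :=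
  fun i => decide (Even (S pos χ (i + 1)))

omit [DecidableEq B] in
lemma S_zero (pos : B × Fin 3 → ℕ) (χ : B → Fin 3) : S pos χ 0 = 0 := by
  simp [S]

lemma S_turn (pos : B × Fin 3 → ℕ) (hp : Function.Injective pos) (χ : B → Fin 3)
    (x : B × Fin 3) (hx : x.2 ≠ χ x.1) : S pos χ (pos x + 1) = S pos χ (pos x) + 1 := by
  unfold S
  rw [← Finset.card_insert_of_notMem (s := univ.filter (fun y : B × Fin 3 => y.2 ≠ χ y.1 ∧
    pos y < pos x)) (a := x) (by simp)]
  congr 1
  ext y
  simp only [mem_filter, mem_univ, true_and, mem_insert]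
  constructor
  · rintro ⟨h1, h2⟩
    rcases Nat.lt_or_eq_of_le (Nat.lt_succ_iff.mp h2) with h | h
    · exact Or.inr ⟨h1, h⟩
    · exact Or.inl (hp h)
  · rintro (h | ⟨h1, h2⟩)
    · subst h
      exact ⟨hx, Nat.lt_succ_self _⟩
    · exact ⟨h1, Nat.lt_succ_of_lt h2⟩

omit [DecidableEq B] in
lemma S_thr (pos : B × Fin 3 → ℕ) (hp : Function.Injective pos) (χ : B → Fin 3)
    (x : B × Fin 3) (hx : x.2 = χ x.1) : S pos χ (pos x + 1) = S pos χ (pos x) := by
  unfold S
  congr 1
  ext y
  simp only [mem_filter, mem_univ, true_and]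
  constructor
  · rintro ⟨h1, h2⟩
    refine ⟨h1, ?_⟩
    rcases Nat.lt_or_eq_of_le (Nat.lt_succ_iff.mp h2) with h | h
    · exact h
    · exact absurd (hp h ▸ hx) h1
  · rintro ⟨h1, h2⟩
    exact ⟨h1, Nat.lt_succ_of_lt h2⟩

omit [DecidableEq B] in
lemma S_top (k : ℕ) (pos : B × Fin 3 → ℕ) (hk : ∀ x, pos x ≤ k) (χ : B → Fin 3) :
    Even (S pos χ (k + 1)) := by
  have h1 : S pos χ (k + 1) = ∑ b : B, 2 := by
    unfold S
    rw [Finset.card_filter, Fintype.sum_prod_type]
    apply Finset.sum_congr rfl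
    intro b _
    have h2 : ∀ y : Fin 3, (if (b, y).2 ≠ χ (b, y).1 ∧ pos (b, y) < k + 1 then 1 else 0) =
        (if y ≠ χ b then 1 else 0) := by
      intro y
      have h3 : pos (b, y) < k + 1 := Nat.lt_succ_of_le (hk _)
      simp [h3]
    rw [Finset.sum_congr rfl (fun y _ => h2 y)]
    have all : ∀ c : Fin 3, (∑ y : Fin 3, (if y ≠ c then 1 else 0)) = 2 := by decide
    exact all (χ b)
  rw [h1, Finset.sum_const, smul_eq_mul]
  exact even_two.mul_left _

/-- the edge on the left counts for p -/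
def Lf (k : ℕ) (o : Fin k → Bool) (p : ℕ) : Prop := p = 0 ∨ ext k o (p - 1) = true

/-- the edge on the right does not count for p -/
def Rf (k : ℕ) (o : Fin k → Bool) (p : ℕ) : Prop := p < k → ext k o p = true

open scoped Classical in
lemma hh_eq (k : ℕ) (o : Fin k → Bool) (p : ℕ) :
    hh k (ext k o) p = (if Lf k o p then 1 else 0) + (if Rf k o p then 0 else 1) := by
  unfold hh Lf Rf
  congr 1
  · by_cases h0 : p = 0
    · simp [h0]
    · simp [h0]
  · by_cases h0 : p < k
    · by_cases h1 : ext k o p = true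
      · simp [h0, h1]
      · simp [h0, h1]
    · simp [h0]

lemma Lf_zero (k : ℕ) (o : Fin k → Bool) : Lf k o 0 := Or.inl rfl

lemma Lf_succ (k : ℕ) (o : Fin k → Bool) (p : ℕ) (h : p < k) : Lf k o (p + 1) ↔ Rf k o p := by
  unfold Lf Rf
  simp [h]

lemma hh_one (k : ℕ) (o : Fin k → Bool) (p : ℕ) :
    hh k (ext k o) p = 1 ↔ (Lf k o p ↔ Rf k o p) := by
  classical
  rw [hh_eq]
  by_cases h1 : Lf k o p <;> by_cases h2 : Rf k o p <;> simp [h1, h2]

omit [DecidableEq B] in
lemma Rf_oc (k : ℕ) (pos : B × Fin 3 → ℕ) (hk : ∀ x, pos x ≤ k) (χ : B → Fin 3) (p : ℕ)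
    (h : p ≤ k) : Rf k (oc k pos χ) p ↔ Even (S pos χ (p + 1)) := by
  unfold Rf Pool.Agent.H57.SC.ext oc
  rcases Nat.lt_or_eq_of_le h with h1 | h1
  · simp [h1]
  · subst h1
    simp [S_top p pos hk χ]

omit [DecidableEq B] in
lemma Lf_oc (k : ℕ) (pos : B × Fin 3 → ℕ) (χ : B → Fin 3) (p : ℕ)
    (h : p ≤ k) : Lf k (oc k pos χ) p ↔ Even (S pos χ p) := by
  rcases p with _ | p
  · simp [Lf_zero, S_zero]
  · unfold Lf Pool.Agent.H57.SC.ext oc
    have h1 : p < k := h
    simp [h1]

lemma hh_oc (k : ℕ) (pos : B × Fin 3 → ℕ) (hp : Function.Injective pos) (hk : ∀ x, pos x ≤ k)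
    (χ : B → Fin 3) (x : B × Fin 3) :
    hh k (ext k (oc k pos χ)) (pos x) =
      if x.2 = χ x.1 then 1 else if Even (S pos χ (pos x)) then 2 else 0 := by
  classical
  rw [hh_eq]
  have h1 := Lf_oc k pos χ (pos x) (hk x)
  have h2 := Rf_oc k pos hk χ (pos x) (hk x)
  by_cases hx : x.2 = χ x.1
  · rw [S_thr pos hp χ x hx] at h2
    by_cases he : Even (S pos χ (pos x))
    · simp [hx, h1, h2, he]
    · simp [hx, h1, h2, he]
  · rw [S_turn pos hp χ x hx] at h2
    by_cases he : Even (S pos χ (pos x))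
    · have h3 : ¬ Even (S pos χ (pos x) + 1) := by
        rw [Nat.not_even_iff_odd]; exact he.add_one
      simp [hx, h1, h2, he, h3]
    · have h3 : Even (S pos χ (pos x) + 1) := (Nat.not_even_iff_odd.mp he).add_one
      simp [hx, h1, h2, he, h3]

/-- the number of turning points strictly between -/
lemma S_between (pos : B × Fin 3 → ℕ) (hp : Function.Injective pos) (χ : B → Fin 3) (b : B)
    (j l : Fin 3) (hj : j ≠ χ b) (hl : l ≠ χ b) (hlt : pos (b, j) < pos (b, l)) :
    S pos χ (pos (b, l)) = S pos χ (pos (b, j)) + 1 +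
      Nat.card {x : B × Fin 3 // x.1 ≠ b ∧ x.2 ≠ χ x.1 ∧ Pool.Agent.H57.SC.Btw pos b (χ b) (pos x)} := by
  classical
  rw [← S_turn pos hp χ (b, j) hj, Nat.card_eq_fintype_card, Fintype.card_subtype]
  unfold S
  rw [← Finset.card_union_of_disjoint]
  · congr 1
    ext y
    have hjl : j ≠ l := by
      intro h
      rw [h] at hlt
      exact lt_irrefl _ hlt
    have all : ∀ u v w z : Fin 3, u ≠ z → v ≠ z → u ≠ v → w ≠ z → w = u ∨ w = v := by decide
    simp only [mem_filter, mem_univ, true_and, mem_union]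
    constructor
    · rintro ⟨h1, h2⟩
      by_cases h3 : pos y < pos (b, j) + 1
      · exact Or.inl ⟨h1, h3⟩
      · right
        refine ⟨?_, h1, j, l, hj, hl, by omega, h2⟩
        intro hb
        obtain ⟨y1, y2⟩ := y
        simp only at hb h1
        subst hb
        rcases all j l y2 (χ y1) hj hl hjl h1 with h | h
        · subst h; omega
        · subst h; omega
    · rintro (⟨h1, h2⟩ | ⟨h1, h2, j', l', hj', hl', h3, h4⟩)
      · exact ⟨h1, by omega⟩
      · refine ⟨h2, ?_⟩
        rcases all j l l' (χ b) hj hl hjl hl' with h | h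
        · subst h
          rcases all l' l j' (χ b) hj hl hjl hj' with h | h
          · subst h; omega
          · subst h; omega
        · subst h; exact h4
  · rw [Finset.disjoint_left]
    intro y hy1 hy2
    simp only [mem_filter, mem_univ, true_and] at hy1 hy2
    obtain ⟨h1, h2, j', l', hj', hl', h3, h4⟩ := hy2
    have hjl : j ≠ l := by
      intro h
      rw [h] at hlt
      exact lt_irrefl _ hlt
    have all : ∀ u v w z : Fin 3, u ≠ z → v ≠ z → u ≠ v → w ≠ z → w = u ∨ w = v := by decide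
    rcases all j l j' (χ b) hj hl hjl hj' with h | h
    · subst h; omega
    · subst h; omega

lemma good_iff (k : ℕ) (pos : B × Fin 3 → ℕ) (hp : Function.Injective pos) (hk : ∀ x, pos x ≤ k)
    (χ : B → Fin 3) :
    Good k pos (oc k pos χ) ↔ ∀ b, Even (Nat.card {x : B × Fin 3 // x.1 ≠ b ∧ x.2 ≠ χ x.1 ∧
      Pool.Agent.H57.SC.Btw pos b (χ b) (pos x)}) := by
  unfold Good
  apply forall_congr'
  intro b
  -- the two turning points in the order of their positions
  have hex : ∃ j l : Fin 3, j ≠ χ b ∧ l ≠ χ b ∧ pos (b, j) < pos (b, l) := by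
    have all : ∀ z : Fin 3, ∃ u v : Fin 3, u ≠ z ∧ v ≠ z ∧ u ≠ v := by decide
    obtain ⟨u, v, hu, hv, huv⟩ := all (χ b)
    rcases lt_trichotomy (pos (b, u)) (pos (b, v)) with h | h | h
    · exact ⟨u, v, hu, hv, h⟩
    · exact absurd (congrArg Prod.snd (hp h)) huv
    · exact ⟨v, u, hv, hu, h⟩
  obtain ⟨j, l, hj, hl, hlt⟩ := hex
  have hjl : j ≠ l := by
    intro h
    rw [h] at hlt
    exact lt_irrefl _ hlt
  have hb := S_between pos hp χ b j l hj hl hlt
  set N := Nat.card {x : B × Fin 3 // x.1 ≠ b ∧ x.2 ≠ χ x.1 ∧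
      Pool.Agent.H57.SC.Btw pos b (χ b) (pos x)} with hN
  have v1 := hh_oc k pos hp hk χ (b, j)
  have v2 := hh_oc k pos hp hk χ (b, l)
  have v3 := hh_oc k pos hp hk χ (b, χ b)
  simp only [if_neg hj, if_neg hl, if_true] at v1 v2 v3
  have hpar : Even N ↔ ¬ (Even (S pos χ (pos (b, j))) ↔ Even (S pos χ (pos (b, l)))) := by
    rw [hb]
    have p1 := Nat.even_add (m := S pos χ (pos (b, j)) + 1) (n := N)
    have p2 := Nat.even_add_one (n := S pos χ (pos (b, j)))
    tauto
  rw [hpar]
  constructor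
  · intro hinj he
    apply hjl
    apply hinj
    show hh k (ext k (oc k pos χ)) (pos (b, j)) = hh k (ext k (oc k pos χ)) (pos (b, l))
    rw [v1, v2]
    by_cases h : Even (S pos χ (pos (b, j)))
    · rw [if_pos h, if_pos (he.mp h)]
    · rw [if_neg h, if_neg (fun h' => h (he.mpr h'))]
  · intro hne
    have all : ∀ u v w z : Fin 3, u ≠ z → v ≠ z → u ≠ v → w = z ∨ w = u ∨ w = v := by decide
    have d : hh k (ext k (oc k pos χ)) (pos (b, j)) ≠ hh k (ext k (oc k pos χ)) (pos (b, l)) ∧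
        hh k (ext k (oc k pos χ)) (pos (b, j)) ≠ hh k (ext k (oc k pos χ)) (pos (b, χ b)) ∧
        hh k (ext k (oc k pos χ)) (pos (b, l)) ≠ hh k (ext k (oc k pos χ)) (pos (b, χ b)) := by
      rw [v1, v2, v3]
      by_cases h : Even (S pos χ (pos (b, j))) <;> by_cases h' : Even (S pos χ (pos (b, l)))
      · exact absurd ⟨fun _ => h', fun _ => h⟩ hne
      · simp [h, h']
      · simp [h, h']
      · exact absurd ⟨fun g => absurd g h, fun g => absurd g h'⟩ hne
    obtain ⟨d1, d2, d3⟩ := d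
    intro u v huv
    simp only at huv
    rcases all j l u (χ b) hj hl hjl with h | h | h <;>
      rcases all j l v (χ b) hj hl hjl with h' | h' | h' <;> subst h <;> subst h'
    · rfl
    · exact absurd huv.symm d2
    · exact absurd huv.symm d3
    · exact absurd huv d2
    · rfl
    · exact absurd huv d1
    · exact absurd huv d3
    · exact absurd huv.symm d1
    · rfl

lemma oc_inj (k : ℕ) (pos : B × Fin 3 → ℕ) (hp : Function.Injective pos) (hk : ∀ x, pos x ≤ k)
    (χ χ' : B → Fin 3) (h : oc k pos χ = oc k pos χ') : χ = χ' := by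
  funext b
  have v1 := hh_oc k pos hp hk χ (b, χ b)
  have v2 := hh_oc k pos hp hk χ' (b, χ b)
  rw [← h, v1] at v2
  simp only [if_true] at v2
  by_contra hne
  rw [if_neg hne] at v2
  by_cases h : Even (S pos χ' (pos (b, χ b)))
  · rw [if_pos h] at v2; omega
  · rw [if_neg h] at v2; omega

lemma hh_le (k : ℕ) (o : Fin k → Bool) (p : ℕ) : hh k (ext k o) p ≤ 2 := by
  classical
  rw [hh_eq]
  by_cases h1 : Lf k o p <;> by_cases h2 : Rf k o p <;> simp [h1, h2]

lemma exists_oc (k : ℕ) (pos : B × Fin 3 → ℕ) (hp : Function.Injective pos)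
    (hpos : ∀ p, p ≤ k ↔ ∃ x, pos x = p) (o : Fin k → Bool) (ho : Good k pos o) :
    ∃ χ : B → Fin 3, oc k pos χ = o := by
  have hk : ∀ x, pos x ≤ k := fun x => (hpos _).mpr ⟨x, rfl⟩
  have hone : ∀ b, ∃ j : Fin 3, ∀ l : Fin 3, hh k (ext k o) (pos (b, l)) = 1 ↔ l = j := by
    intro b
    have hi := ho b
    have e01 : hh k (ext k o) (pos (b, 0)) ≠ hh k (ext k o) (pos (b, 1)) := fun h => by
      have := hi h
      revert this
      decide
    have e02 : hh k (ext k o) (pos (b, 0)) ≠ hh k (ext k o) (pos (b, 2)) := fun h => by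
      have := hi h
      revert this
      decide
    have e12 : hh k (ext k o) (pos (b, 1)) ≠ hh k (ext k o) (pos (b, 2)) := fun h => by
      have := hi h
      revert this
      decide
    have l0 := hh_le k o (pos (b, 0))
    have l1 := hh_le k o (pos (b, 1))
    have l2 := hh_le k o (pos (b, 2))
    have hsome : ∃ j : Fin 3, hh k (ext k o) (pos (b, j)) = 1 := by
      by_contra hc
      push Not at hc
      have c0 := hc 0
      have c1 := hc 1
      have c2 := hc 2
      omega
    obtain ⟨j, hj⟩ := hsome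
    refine ⟨j, fun l => ⟨fun hl => ?_, fun hl => by rw [hl]; exact hj⟩⟩
    apply hi
    show hh k (ext k o) (pos (b, l)) = hh k (ext k o) (pos (b, j))
    rw [hl, hj]
  choose χ hχ using hone
  refine ⟨χ, ?_⟩
  -- right values from left values
  have step : ∀ p, p ≤ k → (Lf k o p ↔ Even (S pos χ p)) → (Rf k o p ↔ Even (S pos χ (p + 1))) := by
    intro p hpk hL
    obtain ⟨x, rfl⟩ := (hpos p).mp hpk
    have h1 := hh_one k o (pos x)
    have h2 : hh k (ext k o) (pos x) = 1 ↔ x.2 = χ x.1 := hχ x.1 x.2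
    by_cases hx : x.2 = χ x.1
    · rw [S_thr pos hp χ x hx]
      tauto
    · rw [S_turn pos hp χ x hx, Nat.even_add_one]
      tauto
  have hLall : ∀ p, p ≤ k → (Lf k o p ↔ Even (S pos χ p)) := by
    intro p
    induction p with
    | zero =>
      intro _
      simp [Lf_zero, S_zero]
    | succ p ih =>
      intro h
      rw [Lf_succ k o p h]
      exact step p (by omega) (ih (by omega))
  funext i
  have h1 := step i.1 (le_of_lt i.2) (hLall i.1 (le_of_lt i.2))
  unfold Rf Pool.Agent.H57.SC.ext at h1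
  simp only [i.2, dif_pos, forall_const] at h1
  unfold oc
  cases hoi : o i
  · rw [hoi] at h1
    simp only [Bool.false_eq_true, false_iff] at h1
    exact decide_eq_false h1
  · rw [hoi] at h1
    exact decide_eq_true (h1.mp rfl)

end OR

open OR in
theorem pf_or (ch : T_CH) : T_OR := by
  intro B _ _ k pos hp hpos
  have hk : ∀ x, pos x ≤ k := fun x => (hpos _).mpr ⟨x, rfl⟩
  have h0 := ch B pos hp
  have hb : Function.Bijective (fun χ : {χ : B → Fin 3 //
      ∀ b, Even (Nat.card {x : B × Fin 3 // x.1 ≠ b ∧ x.2 ≠ χ x.1 ∧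
        Pool.Agent.H57.SC.Btw pos b (χ b) (pos x)})} =>
      (⟨oc k pos χ.1, (good_iff k pos hp hk χ.1).mpr χ.2⟩ : {o : Fin k → Bool // Good k pos o})) := by
    constructor
    · intro χ χ' h
      apply Subtype.ext
      exact oc_inj k pos hp hk _ _ (congrArg Subtype.val h)
    · rintro ⟨o, ho⟩
      obtain ⟨χ, hχ⟩ := exists_oc k pos hp hpos o ho
      refine ⟨⟨χ, ?_⟩, Subtype.ext hχ⟩
      rw [← good_iff k pos hp hk χ, hχ]
      exact ho
  rw [← Nat.card_eq_of_bijective _ hb]
  exact h0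

end Pool.Agent.H31.SC
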